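import Pool.Agent.H16.LP.Alv
import Pool.Agent.H60.KSM.Ful

/-!
# One hop: the velocity of a slow coordinate, any number of faster ones

As Lemma LP (`Pool.LPX`), for one coordinate `U` (its digits up to `M`) over a context `K` which is
few bits given the condition at the third sample: this is so if the coordinates of `K` do not see the
time, `ctx_path`. The velocity of `U` is near for two copies given the ball: `one_near`.
-/

set_option autoImplicit false

namespace Pool.ONE17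

open Finset Real
open Pool.Agent.H49.Ent Pool.Agent.H32.Dense Pool.STK Pool.POT Pool.TQ Pool.LPX
open Pool.K2S (Pe)

variable {Ω β Λ υ σ κ : Type} [Fintype Ω]

/-- The difference of the velocities. -/
def kd (du : Ω → ℤ) (ω ω' : Ω) : ℤ := du ω' - du ω

/-- **The hypotheses**, with the full time: `K` is the context (digits of the faster coordinates),
the rows of `U` over `K` are not full up to the digit `M`. -/
structure OneF (p : Ω → ℝ) (B : Ω → β) (ln : Ω → Λ) (Y : Ω → υ) (S : Ω → σ) (K : Ω → κ)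
    (t U du : Ω → ℤ) (au : Ω → ℝ) (Nb : υ → Finset υ) (X M : ℕ) (C h ϖ d κ₀ : ℝ) : Prop where
  ok : Lp p B ln Y S t Nb X d κ₀
  u : Crd p B ln t U du au X C
  MX : M ≤ X
  full : X * Real.log 2 - 4 * d ≤ CH (q3 p B ln) (fun w => t w.1.1) (Wq ln t Y (kd du))
  ctx : CH (q3 p B ln) (fun w => K w.2) (Wq ln t Y (kd du)) ≤ d
  nf : ∀ i : ℕ, i ≤ M → ∀ G : Ω → Prop, ϖ ≤ Pe p G →
    CH (cond p G True) (fun ω => tp X M (U ω)) (fun ω => (tp X i (U ω), (K ω, S ω))) ≤
      (1 - h) * ((M : ℝ) - i) * Real.log 2 + d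

section

variable {p : Ω → ℝ} {B : Ω → β} {ln : Ω → Λ} {Y : Ω → υ} {S : Ω → σ} {K : Ω → κ}
  {t U du : Ω → ℤ} {au : Ω → ℝ} {Nb : υ → Finset υ} {X M : ℕ} {C h ϖ d κ₀ : ℝ}

/-- The total error. -/
noncomputable def Eo (X g Kn : ℕ) (C ϖ' ϖ d : ℝ) : ℝ :=
  d + (1 / ϖ' / Kn + 1 / ϖ' * ϖ) * (X * Real.log 2 + Real.log 5) + Real.log (Kn + 1) +
    5 * d / ϖ' + g * Real.log 2 + 2 * Real.log (36 * C)

/-- **The size in a large cell.** -/
theorem one_cell (H : OneF p B ln Y S K t U du au Nb X M C h ϖ d κ₀) (hC : 1 ≤ C)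
    (hh0 : 0 < h) (hh1 : h ≤ 1) (hϖ : 0 ≤ ϖ) (hd : 0 ≤ d) {g N Kn : ℕ}
    (hN : X ≤ N * g) (hKn : 0 < Kn) {ϖ' : ℝ} (hϖ' : 0 < ϖ') (i : ℕ)
    (hG : ϖ' ≤ Pe (q3 p B ln) (fun w => idx (4 * C) g N (sl X du w) = i)) {e : ℝ}
    (he : Eo X g Kn C ϖ' ϖ d ≤ e * (h * Real.log 2)) :
    (M : ℝ) ≤ (i * g : ℕ) + e := by
  classical
  have hp := H.ok.law
  have h0 := hp.nonneg
  have hq := q3_law (B := B) (ln := ln) hp
  set q := q3 p B ln with hqd
  set G : (Ω × Ω) × Ω → Prop := fun w => idx (4 * C) g N (sl X du w) = i with hGd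
  have hG0 : 0 < Pe q G := lt_of_lt_of_le hϖ' hG
  set W := Wq ln t Y (kd du) with hW
  have hl2 : 0 < Real.log 2 := Real.log_pos (by norm_num)
  have hl9 : 0 ≤ Real.log (36 * C) := Real.log_nonneg (by linarith)
  have hC1 : 1 ≤ 4 * C := by linarith
  -- the relation
  have hU := crd_rel H.ok H.u (kd du) (fun z => z) (fun _ _ => rfl)
  have hdG : Det q W G := by
    intro w w' a b e
    have e1 := hU.dk w w' a b e
    have e3 : sl X du w = sl X du w' := e1
    simp only [hGd, e3]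
  -- the law of the cell
  set r := cond q G True with hr
  have hrl : IsLaw r := cond_law hq.nonneg hG0
  have hrq : ∀ w, 0 < r w → 0 < q w := fun w hw => ((cond_pos_iff hq.nonneg G True w).1 hw).1
  have hrG : ∀ w, 0 < r w → G w := fun w hw => by
    have := ((cond_pos_iff hq.nonneg G True w).1 hw).2
    simpa using this
  have hUr := hU.mono hrq
  have ht0 : ∀ w, 0 < q w → 0 ≤ t w.1.1 ∧ t w.1.1 < 2 ^ X := fun w hw =>
    H.ok.t0 _ (q3_pos h0 hw).1
  have ht : ∀ w, 0 < r w → 0 ≤ t w.1.1 ∧ t w.1.1 < 2 ^ X := fun w hw => ht0 w (hrq w hw)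
  have fullr : X * Real.log 2 - 4 * d / ϖ' ≤ CH r (fun w => t w.1.1) W := by
    have h1 := time_ev hq (fun w => t w.1.1) W hdG ht0 H.full hG0
    refine le_trans ?_ h1
    have h2 : 4 * d / Pe q G ≤ 4 * d / ϖ' := div_le_div_of_nonneg_left (by positivity) hϖ' hG
    linarith
  -- the context on the cell
  have hKr : CH r (fun w => K w.2) W ≤ d / ϖ' := by
    have h1 := CH_ev hq.nonneg (fun w => K w.2) W hdG
    have h3 : Pe q G = law q G True := rfl
    have h4 : 0 ≤ law q G False * CH (cond q G False) (fun w => K w.2) W :=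
      mul_nonneg (law_nonneg hq.nonneg G False) (CH_nonneg (cond_nonneg hq.nonneg _ _) _ _)
    have h5 := H.ctx
    rw [h3] at hG0 hG
    have h6 : law q G True * CH r (fun w => K w.2) W ≤ d := by linarith
    have h7 : CH r (fun w => K w.2) W ≤ d / law q G True := by
      rw [le_div_iff₀ hG0, mul_comm]
      exact h6
    exact h7.trans (div_le_div_of_nonneg_left hd hϖ' hG)
  -- sizes
  set a := i * g with ha
  have su1 : ∀ w, 0 < r w → |sl X du w| * 2 ^ a ≤ 4 * C := by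
    intro w hw
    obtain ⟨x1, x2, -⟩ := q3_pos h0 (hrq w hw)
    have e1 := idx_spec (C := 4 * C) (g := g) (N := N) ((H.u.sl_le x1 x2).trans (by linarith))
    have e2 : idx (4 * C) g N (sl X du w) = i := hrG w hw
    rw [e2] at e1
    exact e1
  have su2 : a < X → ∀ w, 0 < r w → 1 ≤ |sl X du w| * 2 ^ (a + g) := by
    intro haX w hw
    have e1 : idx (4 * C) g N (sl X du w) = i := hrG w hw
    have e2 : i < N := by
      by_contra hc
      have : N * g ≤ i * g := Nat.mul_le_mul_right g (not_lt.1 hc)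
      omega
    have e3 := idx_low hC1 (g := g) (N := N) (x := sl X du w) (by rw [e1]; exact e2)
    rw [e1] at e3
    exact e3
  -- the record of the third sample
  have hS : Det r W (fun w => S w.2) := by
    intro w w' x y e'
    obtain ⟨-, -, x3, -, x5⟩ := q3_pos h0 (hrq w x)
    obtain ⟨-, -, y3, -, y5⟩ := q3_pos h0 (hrq w' y)
    have e1 : t w.2 = t w'.2 := congrArg (fun z => z.2.1) e'
    have e2 : Y w.1.2 = Y w'.1.2 := congrArg (fun z => z.2.2.1) e'
    have e3 := H.ok.lY _ _ (q3_pos h0 (hrq w x)).2.1 x3 x5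
    have e4 := H.ok.lY _ _ (q3_pos h0 (hrq w' y)).2.1 y3 y5
    have e6 : Y w.2 = Y w'.2 := by rw [← e3, e2, e4]
    exact H.ok.SY _ _ x3 y3 (Prod.ext e6 e1)
  have h36 : (9 : ℝ) * (4 * C) = 36 * C := by ring
  have hEr0 : 0 ≤ Eo X g Kn C ϖ' ϖ d := by
    unfold Eo
    have e1 : 0 ≤ Real.log ((Kn : ℝ) + 1) := Real.log_nonneg (by
      have : (0 : ℝ) ≤ Kn := Nat.cast_nonneg _
      linarith)
    have e2 : 0 ≤ Real.log 5 := Real.log_nonneg (by norm_num)
    have e3 : 0 ≤ (1 / ϖ' / Kn + 1 / ϖ' * ϖ) * (X * Real.log 2 + Real.log 5) := by positivity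
    have e4 : 0 ≤ 5 * d / ϖ' := by positivity
    have e5 : 0 ≤ (g : ℝ) * Real.log 2 := by positivity
    linarith
  have he0 : 0 ≤ e := by
    by_contra hc
    push Not at hc
    have : e * (h * Real.log 2) < 0 := mul_neg_of_neg_of_pos hc (by positivity)
    linarith
  rcases Nat.lt_or_ge a M with ham | ham
  · have hmX := H.MX
    have haX : a < X := lt_of_lt_of_le ham hmX
    set b := (1 - h) * ((M : ℝ) - a) * Real.log 2 + d with hb
    have hma : (0 : ℝ) ≤ (M : ℝ) - a := by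
      have : (a : ℝ) ≤ M := by exact_mod_cast ham.le
      linarith
    have hb0 : 0 ≤ b := by
      have : 0 ≤ (1 - h) * ((M : ℝ) - a) * Real.log 2 :=
        mul_nonneg (mul_nonneg (by linarith) hma) hl2.le
      linarith
    have hup := up_row hp hq (q3_3 h0) hϖ' hG hϖ (V := U) hmX ham.le
      (fun ω => (K ω, S ω)) hb0 (fun G' hG' => H.nf a ham.le G' hG') hKn
    have hK : CH r (fun w => (K w.2, S w.2)) W ≤ d / ϖ' := by
      have g1 := CH_subadd hrl.nonneg (fun w => K w.2) (fun w => S w.2) W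
      rw [CH_eq_zero hrl.nonneg hS, add_zero] at g1
      exact g1.trans hKr
    have g3 := disp_a hrl hUr hC1 ham.le hmX ht fullr su1 (su2 haX)
      (fun w => (K w.2, S w.2)) hK hup
    rw [h36] at g3
    have g4 : h * ((M : ℝ) - a) * Real.log 2 ≤ Eo X g Kn C ϖ' ϖ d := by
      unfold Eo
      rw [hb] at g3
      have e6 : 5 * d / ϖ' = 4 * d / ϖ' + d / ϖ' := by ring
      rw [e6]
      linarith
    have g5 : ((M : ℝ) - a) * (h * Real.log 2) ≤ e * (h * Real.log 2) := by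
      refine le_trans (le_of_eq ?_) (g4.trans he)
      ring
    have g6 := le_of_mul_le_mul_right g5 (by positivity)
    linarith
  · have : (M : ℝ) ≤ a := by exact_mod_cast ham
    linarith

open Classical in
/-- **The velocity is near for two copies given the ball**, with all the numbers. -/
theorem one_num (H : OneF p B ln Y S K t U du au Nb X M C h ϖ d κ₀) (hC : 1 ≤ C)
    (hh0 : 0 < h) (hh1 : h ≤ 1) (hϖ : 0 ≤ ϖ) (hd : 0 ≤ d) {g N Kn : ℕ}
    (hN : X ≤ N * g) (hKn : 0 < Kn) {ϖ' : ℝ} (hϖ' : 0 < ϖ') {e : ℝ}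
    (he : Eo X g Kn C ϖ' ϖ d ≤ e * (h * Real.log 2)) {n : ℕ} (hn : e ≤ n) :
    Ex (dbl p B) (fun w => if |(du w.1 : ℝ) - du w.2| ≤ 4 * C * 2 ^ n * 2 ^ (X - M) then 0 else 1) ≤
      (N + 1) ^ 2 * ϖ' := by
  have hp := H.ok.law
  have h0 := hp.nonneg
  have hq := q3_law (B := B) (ln := ln) hp
  set q := q3 p B ln with hqd
  set P : ℕ → ℕ → Prop := fun i _ => M ≤ i * g + n with hP
  set I : (Ω × Ω) × Ω → ℕ := fun w => idx (4 * C) g N (sl X du w) with hI
  have hbad := bad_le (q := q) N I (fun _ => 0) (fun _ => idx_le _ _ _ _)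
    (fun _ => Nat.zero_le _) hϖ'.le P (by
    intro i j hij
    have h1 : ϖ' ≤ Pe q (fun w => idx (4 * C) g N (sl X du w) = i) := by
      refine hij.trans ?_
      unfold Pool.K2S.Pe law
      refine Finset.sum_le_sum fun ω _ => ?_
      by_cases h2 : I ω = i ∧ 0 = j
      · have h3 : idx (4 * C) g N (sl X du ω) = i := h2.1
        simp [h2, h3]
      · have h4 : (0 : ℝ) ≤ q ω := hq.nonneg ω
        simp only [h2]
        split_ifs
        all_goals simp_all
    have h2 := one_cell H hC hh0 hh1 hϖ hd hN hKn hϖ' i h1 he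
    have : (M : ℝ) ≤ ((i * g + n : ℕ) : ℝ) := by
      push_cast at h2 ⊢
      linarith
    exact_mod_cast this)
  have e1 := (q3_12 (B := B) (ln := ln) h0).Ex
    (fun w : Ω × Ω => if |(du w.1 : ℝ) - du w.2| ≤ 4 * C * 2 ^ n * 2 ^ (X - M) then (0 : ℝ) else 1)
  rw [← e1]
  refine le_trans (Ex_mono hq.nonneg fun w hw => ?_) hbad
  by_cases h1 : P (I w) 0
  · have h5 : |(du w.1.1 : ℝ) - du w.1.2| ≤ 4 * C * 2 ^ n * 2 ^ (X - M) := by
      obtain ⟨x1, x2, -⟩ := q3_pos h0 hw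
      have h6 : |sl X du w| ≤ 4 * C := (H.u.sl_le x1 x2).trans (by linarith)
      have h7 : |sl X du w| * 2 ^ (I w * g) ≤ 4 * C := idx_spec h6
      have h8 := pow_sub_le (X := X) (by linarith : (0 : ℝ) ≤ 4 * C) h7
      have hPX : (0 : ℝ) < 2 ^ X := by positivity
      have h9 : |sl X du w| * 2 ^ X = |(du w.1.1 : ℝ) - du w.1.2| := by
        unfold sl
        rw [abs_neg, abs_div, abs_of_pos hPX, div_mul_cancel₀ _ hPX.ne', abs_sub_comm]
      rw [h9] at h8
      refine h8.trans ?_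
      rw [mul_assoc (4 * C), ← pow_add]
      refine mul_le_mul_of_nonneg_left (pow_le_pow_right₀ (by norm_num) ?_) (by positivity)
      have h10 : M ≤ I w * g + n := h1
      omega
    rw [if_pos h5]
    split_ifs <;> norm_num
  · rw [if_neg h1]
    split_ifs <;> norm_num

end

open Classical in
/-- **One hop.** The velocity of `U` to `M` digits is the same up to `ε X` digits for two copies
given the ball, with probability at least `1 - c`. -/
theorem one_near (C h ε c : ℝ) (hC : 1 ≤ C) (hh0 : 0 < h) (hh1 : h ≤ 1) (hε : 0 < ε)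
    (hc : 0 < c) : ∃ κ' ϖ : ℝ, 0 < κ' ∧ 0 < ϖ ∧ ∃ X₀ : ℕ,
    ∀ {Ω β Λ υ σ κ : Type} [Fintype Ω] {p : Ω → ℝ} {B : Ω → β} {ln : Ω → Λ} {Y : Ω → υ}
    {S : Ω → σ} {K : Ω → κ} {t U du : Ω → ℤ} {au : Ω → ℝ} {Nb : υ → Finset υ} {X M : ℕ}
    {d κ₀ : ℝ}, OneF p B ln Y S K t U du au Nb X M C h ϖ d κ₀ → X₀ ≤ X → 0 ≤ d → d ≤ κ' * X →
    Ex (dbl p B) (fun w => if |(du w.1 : ℝ) - du w.2| ≤ (2 : ℝ) ^ (ε * X) * 2 ^ (X - M) then 0
      else 1) ≤ c := by
  have hl2 : 0 < Real.log 2 := Real.log_pos (by norm_num)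
  have hl2' : Real.log 2 ≤ 1 := by
    have := Real.log_le_sub_one_of_pos (by norm_num : (0 : ℝ) < 2)
    linarith
  set η := ε * h / 8 with hη
  have hη0 : 0 < η := by positivity
  set N := ⌈2 / η⌉₊ with hN
  have hNη : 2 / η ≤ N := Nat.le_ceil _
  set ϖ' := c / ((N : ℝ) + 1) ^ 2 with hϖ'
  have hϖ'0 : 0 < ϖ' := by positivity
  set Kn := ⌈16 / (ε * h * ϖ')⌉₊ + 1 with hKn
  have hKn0 : 0 < Kn := Nat.succ_pos _
  have hKnr : 16 / (ε * h * ϖ') ≤ Kn := by
    have := Nat.le_ceil (16 / (ε * h * ϖ'))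
    rw [hKn]
    push_cast
    linarith
  set ϖ := ε * h * ϖ' / 16 with hϖ
  have hϖ0 : 0 < ϖ := by positivity
  set κ' := ε * (h * Real.log 2) / (8 * (1 + 5 / ϖ')) with hκ
  have hκ0 : 0 < κ' := by positivity
  set c0 := ((1 / ϖ' / Kn + 1 / ϖ' * ϖ) * Real.log 5 + Real.log (Kn + 1) +
    2 * Real.log (36 * C)) / (h * Real.log 2) + 1 + Real.log (4 * C) / Real.log 2 with hc0
  refine ⟨κ', ϖ, hκ0, hϖ0, max ⌈2 / η⌉₊ ⌈8 * c0 / ε⌉₊, ?_⟩
  intro Ω β Λ υ σ κ _ p B ln Y S K t U du au Nb X M d κ₀ H hX hd hdκ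
  have hX1 : 2 / η ≤ X := by
    have h1 : ⌈2 / η⌉₊ ≤ X := (le_max_left _ _).trans hX
    exact (Nat.le_ceil _).trans (by exact_mod_cast h1)
  have hX2 : 8 * c0 / ε ≤ X := by
    have h1 : ⌈8 * c0 / ε⌉₊ ≤ X := (le_max_right _ _).trans hX
    exact (Nat.le_ceil _).trans (by exact_mod_cast h1)
  have hX0 : (0 : ℝ) ≤ X := Nat.cast_nonneg X
  have hηX : 2 ≤ η * X := by
    rw [div_le_iff₀ hη0] at hX1
    linarith
  set g := ⌊η * X⌋₊ with hg
  have hg1 : (g : ℝ) ≤ η * X := Nat.floor_le (by positivity)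
  have hg2 : η * X / 2 ≤ g := by
    have := Nat.lt_floor_add_one (η * (X : ℝ))
    linarith
  have hNg : X ≤ N * g := by
    have h1 : (X : ℝ) ≤ N * g := by
      have h2 : 2 / η * (η * X / 2) ≤ N * g :=
        mul_le_mul hNη hg2 (by positivity) (Nat.cast_nonneg N)
      have h3 : 2 / η * (η * X / 2) = X := by field_simp
      linarith
    exact_mod_cast h1
  set E := Eo X g Kn C ϖ' ϖ d with hE
  have hlK : 0 ≤ Real.log ((Kn : ℝ) + 1) := Real.log_nonneg (by
    have : (0 : ℝ) ≤ Kn := Nat.cast_nonneg _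
    linarith)
  have hl5 : 0 ≤ Real.log 5 := Real.log_nonneg (by norm_num)
  have hl36 : 0 ≤ Real.log (36 * C) := Real.log_nonneg (by linarith)
  set hl := h * Real.log 2 with hhl
  have hhl0 : 0 < hl := by positivity
  set e := E / hl with he
  have heE : E ≤ e * hl := by
    rw [he, div_mul_cancel₀ _ hhl0.ne']
  have hE0 : 0 ≤ E := by
    rw [hE]
    unfold Eo
    positivity
  have he0 : 0 ≤ e := by positivity
  set n := ⌈e⌉₊ with hn
  have hn1 : e ≤ n := Nat.le_ceil _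
  have hn2 : (n : ℝ) ≤ e + 1 := (Nat.ceil_lt_add_one he0).le
  have key := one_num H hC hh0 hh1 hϖ0.le hd hNg hKn0 hϖ'0 heE hn1
  have hN2 : ((N : ℝ) + 1) ^ 2 * ϖ' = c := by
    rw [hϖ']
    field_simp
  rw [hN2] at key
  -- the size of the error
  have hce : e ≤ 3 * (ε / 8 * X) + ((1 / ϖ' / Kn + 1 / ϖ' * ϖ) * Real.log 5 +
      Real.log (Kn + 1) + 2 * Real.log (36 * C)) / hl := by
    have h1 : (d + 5 * d / ϖ') / hl ≤ ε / 8 * X := by
      rw [div_le_iff₀ hhl0]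
      have h2 : d + 5 * d / ϖ' = (1 + 5 / ϖ') * d := by ring
      rw [h2]
      have h3 : (1 + 5 / ϖ') * d ≤ (1 + 5 / ϖ') * (κ' * X) :=
        mul_le_mul_of_nonneg_left hdκ (by positivity)
      refine h3.trans (le_of_eq ?_)
      rw [hκ]
      field_simp
    have h5 : (1 / ϖ' / Kn + 1 / ϖ' * ϖ) * (X * Real.log 2) / hl ≤ ε / 8 * X := by
      have h6 : 1 / ϖ' / Kn ≤ ε * h / 16 := by
        have h7 : 16 ≤ Kn * (ε * h * ϖ') := by
          rwa [div_le_iff₀ (by positivity)] at hKnr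
        have h8 : 1 / ϖ' / Kn = 1 / (ϖ' * Kn) := by field_simp
        have hKr : (0 : ℝ) < Kn := by exact_mod_cast hKn0
        rw [h8, div_le_div_iff₀ (by positivity) (by norm_num)]
        linarith
      have h9 : 1 / ϖ' * ϖ = ε * h / 16 := by
        rw [hϖ]
        field_simp
      rw [div_le_iff₀ hhl0, h9]
      have h10 : 0 ≤ X * Real.log 2 := by positivity
      have h11 := mul_le_mul_of_nonneg_right h6 h10
      rw [hhl]
      nlinarith
    have h12 : g * Real.log 2 / hl ≤ ε / 8 * X := by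
      rw [div_le_iff₀ hhl0, hhl]
      have h13 := mul_le_mul_of_nonneg_right hg1 hl2.le
      refine h13.trans (le_of_eq ?_)
      rw [hη]
      ring
    have h14 : e = (d + 5 * d / ϖ') / hl + (1 / ϖ' / Kn + 1 / ϖ' * ϖ) * (X * Real.log 2) / hl +
        g * Real.log 2 / hl + ((1 / ϖ' / Kn + 1 / ϖ' * ϖ) * Real.log 5 +
      Real.log (Kn + 1) + 2 * Real.log (36 * C)) / hl := by
      rw [he, hE]
      unfold Eo
      ring
    linarith
  have hc8 : c0 ≤ ε / 8 * X := by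
    rw [div_le_iff₀ hε] at hX2
    linarith
  have hlC : Real.log (4 * C) / Real.log 2 * Real.log 2 = Real.log (4 * C) :=
    div_mul_cancel₀ _ hl2.ne'
  have htot : 4 * C * 2 ^ n ≤ (2 : ℝ) ^ (ε * X) := by
    have h1 : (n : ℝ) + Real.log (4 * C) / Real.log 2 ≤ ε * X := by
      rw [hc0] at hc8
      have : 0 ≤ ε * X := by positivity
      linarith
    have h2 : (4 * C : ℝ) = 2 ^ (Real.log (4 * C) / Real.log 2) := by
      rw [Real.rpow_def_of_pos (by norm_num), mul_comm (Real.log 2), hlC, Real.exp_log (by linarith)]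
    have h3 : (2 : ℝ) ^ n = (2 : ℝ) ^ (n : ℝ) := (Real.rpow_natCast 2 n).symm
    rw [h3]
    calc 4 * C * (2 : ℝ) ^ (n : ℝ) =
        2 ^ (Real.log (4 * C) / Real.log 2) * (2 : ℝ) ^ (n : ℝ) := by rw [← h2]
      _ = 2 ^ (Real.log (4 * C) / Real.log 2 + n) := (Real.rpow_add (by norm_num) _ _).symm
      _ ≤ 2 ^ (ε * X) := Real.rpow_le_rpow_of_exponent_le (by norm_num) (by linarith)
  refine le_trans (Ex_mono (dbl_nonneg H.ok.law.nonneg) fun w hw => ?_) key
  by_cases h1 : |(du w.1 : ℝ) - du w.2| ≤ 4 * C * 2 ^ n * 2 ^ (X - M)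
  · have h2 : |(du w.1 : ℝ) - du w.2| ≤ (2 : ℝ) ^ (ε * X) * 2 ^ (X - M) :=
      h1.trans (mul_le_mul_of_nonneg_right htot (by positivity))
    rw [if_pos h2]
    split_ifs <;> norm_num
  · rw [if_neg h1]
    split_ifs <;> norm_num

section path

variable {p : Ω → ℝ} {B : Ω → β} {ln : Ω → Λ} {Y : Ω → υ} {t : Ω → ℤ} {X : ℕ} {C : ℝ}

/-- **Coordinates whose paths are near for the lines of one ball**: `V j` has the path `pa j`, a
function of the line; the paths of two lines of one ball agree to `m j` digits. -/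
structure PathN {ι : Type} (p : Ω → ℝ) (B : Ω → β) (ln : Ω → Λ) (t : Ω → ℤ) (V : ι → Ω → ℤ)
    (pa : ι → Ω → ℤ → ℝ) (X : ℕ) (m : ι → ℕ) (C : ℝ) : Prop where
  det : ∀ j, Det p ln (pa j)
  val : ∀ j ω, 0 < p ω → |(V j ω : ℝ) - pa j ω (t ω)| ≤ C
  near : ∀ j ω ω', 0 < p ω → 0 < p ω' → B ω = B ω' → ∀ τ : ℤ, 0 ≤ τ → τ < 2 ^ X →
    |pa j ω τ - pa j ω' τ| ≤ C * 2 ^ (X - m j)

/-- **The coordinates do not see the time**: their digits at the third sample are few bits given the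
condition. -/
theorem ctx_path {ι : Type} [Fintype ι] (hp : IsLaw p) (ht0 : ∀ ω, 0 < p ω → 0 ≤ t ω ∧ t ω < 2 ^ X)
    {V : ι → Ω → ℤ} {pa : ι → Ω → ℤ → ℝ} {m : ι → ℕ} (H : PathN p B ln t V pa X m C) (hC : 1 ≤ C)
    {δ : Type} (k : Ω → Ω → δ) :
    CH (q3 p B ln) (fun w j => tp X (m j) (V j w.2)) (Wq ln t Y k) ≤
      Fintype.card ι * Real.log (11 * C) := by
  classical
  have h0 := hp.nonneg
  have hq := q3_law (B := B) (ln := ln) hp
  have h1 : ∀ (j : ι) (w : (Ω × Ω) × Ω), 0 < q3 p B ln w →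
      |(V j w.2 : ℝ) - pa j w.1.1 (t w.2)| ≤ 2 * C * 2 ^ (X - m j) := by
    intro j w hw
    obtain ⟨a1, a2, a3, a4, a5⟩ := q3_pos h0 hw
    have g1 := H.val j _ a3
    have g2 : pa j w.1.2 = pa j w.2 := H.det j _ _ a2 a3 a5
    have g3 := H.near j _ _ a1 a2 a4 (t w.2) (ht0 _ a3).1 (ht0 _ a3).2
    rw [g2] at g3
    have h2 : (1 : ℝ) ≤ 2 ^ (X - m j) := one_le_pow₀ (by norm_num)
    have h3 : C ≤ C * 2 ^ (X - m j) := le_mul_of_one_le_right (by linarith) h2
    rw [abs_le] at g1 g3 ⊢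
    constructor <;> linarith
  refine (Pool.KSM.CH_pi hq.nonneg _ _).trans ?_
  have h2 : ∀ j ∈ (Finset.univ : Finset ι), CH (q3 p B ln) (fun w => tp X (m j) (V j w.2))
      (Wq ln t Y k) ≤ Real.log (11 * C) := by
    intro j _
    refine (CH_few_tp hq (fun w : (Ω × Ω) × Ω => V j w.2) (Wq ln t Y k) (X := X) (m := m j)
      (L := 4 * C) ?_).trans (Real.log_le_log (by positivity) (by linarith))
    intro w w' a b e
    have e1 : ln w.1.1 = ln w'.1.1 := congrArg (fun z => z.1) e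
    have e2 : t w.2 = t w'.2 := congrArg (fun z => z.2.1) e
    have g1 := h1 j w a
    have g2 := h1 j w' b
    have g3 := H.det j _ _ (q3_pos h0 a).1 (q3_pos h0 b).1 e1
    rw [g3, e2] at g1
    rw [abs_le] at g1 g2 ⊢
    constructor <;> linarith
  refine (Finset.sum_le_sum h2).trans (le_of_eq ?_)
  rw [Finset.sum_const, Finset.card_univ, nsmul_eq_mul]

end path

/-- **The hypotheses**, the velocity may have its own digits: `nat` are the digits known to the
ball. -/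
structure OneI {ν : Type} (p : Ω → ℝ) (B : Ω → β) (ln : Ω → Λ) (Y : Ω → υ) (S : Ω → σ) (K : Ω → κ)
    (t U du : Ω → ℤ) (nat : Ω → ν) (au : Ω → ℝ) (Nb : υ → Finset υ) (X M : ℕ)
    (C h ϖ d κ₀ : ℝ) : Prop where
  ok : Lp p B ln Y S t Nb X d κ₀
  u : Crd p B ln t U du au X C
  MX : M ≤ X
  natl : Det p ln nat
  natB : Det p B nat
  ind : CH p du (fun ω => (Y ω, nat ω)) ≤ CH p du (fun ω => (Y ω, B ω)) + d
  ctx : CH (q3 p B ln) (fun w => K w.2) (Wq ln t Y (kd du)) ≤ d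
  nf : ∀ i : ℕ, i ≤ M → ∀ G : Ω → Prop, ϖ ≤ Pe p G →
    CH (cond p G True) (fun ω => tp X M (U ω)) (fun ω => (tp X i (U ω), (K ω, S ω))) ≤
      (1 - h) * ((M : ℝ) - i) * Real.log 2 + d

theorem OneI.of {ν : Type} {p : Ω → ℝ} {B : Ω → β} {ln : Ω → Λ} {Y : Ω → υ} {S : Ω → σ}
    {K : Ω → κ} {t U du : Ω → ℤ} {nat : Ω → ν} {au : Ω → ℝ} {Nb : υ → Finset υ} {X M : ℕ}
    {C h ϖ d κ₀ : ℝ} (H : OneI p B ln Y S K t U du nat au Nb X M C h ϖ d κ₀) :
    OneF p B ln Y S K t U du au Nb X M C h ϖ d κ₀ where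
  ok := H.ok
  u := H.u
  MX := H.MX
  full := time_fullI H.ok du H.u.dd nat H.natl H.natB H.ind (kd du) (fun x y => y - x)
    (fun _ _ => rfl)
  ctx := H.ctx
  nf := H.nf

end Pool.ONE17
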